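import Pool.Agent.helper81.BS.Fin3
import Pool.Agent.helper81.PL.Inst
import Pool.Agent.helper62.PL.INW
import Pool.Agent.helper62.PL.PAD
import Pool.Agent.helper50.BS.Fin

/-!
# Edge Bisection is solvable in time 2^{O(k)} n^{O(1)}
-/

set_option autoImplicit false

namespace Pool.Agent.Results.MP_b34eaa_lc.EdgeBisectionSingleExponential

open Pool.Agent.helper81.PL Pool.Agent.helper81.BS Pool.Agent.BSFin

theorem result : ∃ (M : Turing.TM2ComputableAux Bool Bool) (C : ℕ),
    ∀ (n k : ℕ) (G : SimpleGraph (Fin n)) [DecidableRel G.Adj] [Decidable (EdgeBisection G k)],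
      Nonempty (Turing.TM2OutputsInTime M.tm (List.map M.inputAlphabet.invFun (encG n k G))
        (some (List.map M.outputAlphabet.invFun [decide (EdgeBisection G k)]))
        (C ^ k * (n + 2) ^ C)) :=
  final_of PAD INW1 INW2 INW3 INW4 INW5 INW6 INW7
    (fun N n k E hN hE => decAll_ok Fin_UA1 Fin_UB1 Fin_UB2 Fin_T5 Fin_TR1 Fin_UND Fin_URD Fin_UDEC
      hN hE)

end Pool.Agent.Results.MP_b34eaa_lc.EdgeBisectionSingleExponential
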